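import Mathlib
import Pool.Agent.Helper877.Jor.Main

/-!
# Groups covered by the conjugates of a finite simple subgroup
-/

set_option autoImplicit false

namespace Pool.Agent.Results.MP_ca9d64_al.SimpleOvergroup

open Pool.Agent.Helper877.Jor

/-- Let `H` be a proper finite simple subgroup of `G` such that every element of `G` is conjugate to an
element of `H`. Then `G` is infinite and simple, its elements satisfy `g ^ e = 1` with `e` the exponent of
`H`, it has finitely many conjugacy classes, it has no proper subgroup of finite index, the normaliser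
of `H` has infinite index, and `H` is the only finite subgroup `K ≥ H` in which every element is
`K`-conjugate to an element of `H`. -/
theorem result (G : Type) [Group G] (H : Subgroup G) [Finite H] (hs : IsSimpleGroup H) (hH : H ≠ ⊤)
    (hcov : ∀ x : G, ∃ g : G, g * x * g⁻¹ ∈ H) :
    Infinite G ∧ IsSimpleGroup G ∧ (∀ g : G, g ^ Monoid.exponent H = 1) ∧ Finite (ConjClasses G) ∧
    (∀ K : Subgroup G, K.FiniteIndex → K = ⊤) ∧ ¬ (Subgroup.normalizer (H : Set G)).FiniteIndex ∧
    (∀ K : Subgroup G, Finite K → H ≤ K → (∀ x ∈ K, ∃ g ∈ K, g * x * g⁻¹ ∈ H) → H = K) := by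
  have hinf : Infinite G := by
    by_contra hn
    rw [not_infinite_iff_finite] at hn
    exact hH (jordan G H hcov)
  have hsim : IsSimpleGroup G := covers_simple G H hs hcov
  exact ⟨hinf, hsim, covers_exponent G H hcov, covers_conj G H hcov,
    fun K hK => simple_no_finite_index G K hK, covers_normalizer G H hcov,
    fun K _ hHK h => overgroup G H K hHK h⟩

end Pool.Agent.Results.MP_ca9d64_al.SimpleOvergroup
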